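import Pool.Agent.Lib.helper8.Amen

set_option autoImplicit false

namespace Pool.Agent.H.MP_52bd65_al

open Filter Pool.Agent.Lib.helper8.Amen

section Gen
variable {P : Type} [Group P]

theorem le_nz {K N : Subgroup P} (h : ∀ x ∈ K, ∀ n ∈ N, x⁻¹ * n * x ∈ N) :
    K ≤ Subgroup.normalizer (N : Set P) := by
  intro x hx
  rw [Subgroup.mem_normalizer_iff'']
  intro n
  refine ⟨fun hn => h x hx n hn, fun hn => ?_⟩
  have := h x⁻¹ (K.inv_mem hx) _ hn
  simpa [mul_assoc] using this

theorem am_chain {I : Type} [LinearOrder I] (S : I → Subgroup P) (h : ∀ i, Am (S i))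
    (hn : ∀ i j, i ≤ j → ∀ x ∈ S i, ∀ n ∈ S j, x⁻¹ * n * x ∈ S j) : Am (⨆ i, S i) := by
  classical
  rw [iSup_eq_iSup_finset]
  apply am_iSup_directed
  · apply Monotone.directed_le
    intro A B hAB
    exact biSup_mono hAB
  · intro C
    induction C using Finset.induction_on_max with
    | empty => simpa using am_bot
    | insert a C hC ih =>
      rw [Finset.iSup_insert]
      refine (h a).sup ih fun x hx n hn' => ?_
      have : (⨆ i ∈ C, S i) ≤ Subgroup.normalizer (S a : Set P) :=
        iSup₂_le fun i hi => le_nz (hn i a (hC i hi).le)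
      exact (Subgroup.mem_normalizer_iff''.1 (this hx) n).1 hn'

theorem exists_closed (l : P →* P) (N : Subgroup P) (hN : Am N)
    (hn : ∀ g, ∀ n ∈ N, (l g)⁻¹ * n * l g ∈ N) :
    ∃ G : Subgroup P, Am G ∧ N ≤ G ∧ ∀ g ∈ G, l g ∈ G := by
  let S : ℕ → Subgroup P := fun k => Nat.rec ⊥ (fun _ H => N ⊔ H.map l) k
  have hs : ∀ k, S (k + 1) = N ⊔ (S k).map l := fun _ => rfl
  have hm : Monotone S := by
    apply monotone_nat_of_le_succ
    intro k
    induction k with
    | zero => exact bot_le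
    | succ k ih =>
      rw [hs (k + 1), hs k]
      exact sup_le_sup_left (Subgroup.map_mono (hs k ▸ ih)) _
  refine ⟨⨆ k, S k, am_iSup_directed S hm.directed_le fun k => ?_,
    le_trans (le_sup_left (b := (S 0).map l)) (le_iSup S 1), fun g hg => ?_⟩
  · induction k with
    | zero => exact am_bot
    | succ k ih =>
      refine hN.sup (ih.map l) ?_
      rintro _ ⟨g, -, rfl⟩ n h
      exact hn g n h
  · obtain ⟨k, hk⟩ := (Subgroup.mem_iSup_of_directed hm.directed_le).1 hg
    exact le_iSup S (k + 1) (Subgroup.mem_sup_right ⟨g, hk, rfl⟩)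

variable {Q : Type} [LinearOrder Q] [MulAction P Q]

theorem trans_lev (l : P →* P) (ι : Q → Q) (hι : StrictMono ι)
    (hm : ∀ g : P, StrictMono fun x : Q => g • x) (hl : ∀ g x, l g • ι x = ι (g • x))
    (G : Subgroup P) (hG : ∀ g ∈ G, l g ∈ G)
    (st : ∀ c d : Q, ∃ u ∈ G, u • ι c = ι d ∧ ∀ b, b < c → b < d → u • ι b = ι b)
    (n : ℕ) (a b : Fin n → Q) (ha : StrictMono a) (hb : StrictMono b) :
    ∃ g ∈ G, ∀ i, g • ι^[n] (a i) = ι^[n] (b i) := by
  induction n with
  | zero => exact ⟨1, G.one_mem, fun i => i.elim0⟩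
  | succ n ih =>
    obtain ⟨g, hg, e⟩ := ih (fun i => a i.castSucc) (fun i => b i.castSucc)
      (fun i j h => ha (by simpa using h)) (fun i j h => hb (by simpa using h))
    obtain ⟨u, hu, h1, h2⟩ := st (g • ι^[n] (a (Fin.last n))) (ι^[n] (b (Fin.last n)))
    refine ⟨u * l g, G.mul_mem hu (hG g hg), fun i => ?_⟩
    rw [Function.iterate_succ_apply', Function.iterate_succ_apply', mul_smul, hl]
    induction i using Fin.lastCases with
    | last => exact h1
    | cast i =>
      rw [e i]
      apply h2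
      · rw [← e i]
        exact hm g (hι.iterate n (ha (Fin.castSucc_lt_last i)))
      · exact hι.iterate n (hb (Fin.castSucc_lt_last i))

theorem it_smul (l : P →* P) (ι : Q → Q) (hl : ∀ g x, l g • ι x = ι (g • x)) (m : ℕ) (g : P)
    (x : Q) : l^[m] g • ι^[m] x = ι^[m] (g • x) := by
  induction m with
  | zero => rfl
  | succ m ih => simp only [Function.iterate_succ_apply', hl, ih]

/-- the class of the sequence started at level k -/
noncomputable def pt {A : Type} (f : A → A) (k : ℕ) (a : A) :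
    Germ (hyperfilter ℕ : Filter ℕ) A := ↑(fun n => f^[n - k] a)

theorem pt_up {A : Type} (f : A → A) {k m : ℕ} (h : k ≤ m) (a : A) :
    pt f k a = pt f m (f^[m - k] a) := by
  apply Germ.coe_eq.2
  filter_upwards [Nat.hyperfilter_le_atTop (eventually_ge_atTop m)] with n hn
  rw [← Function.iterate_add_apply]
  congr 1
  omega

noncomputable def sig (l : P →* P) (k : ℕ) : P →* Germ (hyperfilter ℕ : Filter ℕ) P where
  toFun := pt l k
  map_one' := by
    unfold pt
    simp only [iterate_map_one]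
    rfl
  map_mul' a b := by
    unfold pt
    simp only [iterate_map_mul]
    rfl

theorem main_abs (l : P →* P) (ι : Q → Q) (hι : StrictMono ι) [Nontrivial Q]
    (hm : ∀ g : P, StrictMono fun x : Q => g • x) (hl : ∀ g x, l g • ι x = ι (g • x))
    (N : Subgroup P) (hN : Am N) (hn : ∀ g, ∀ n ∈ N, (l g)⁻¹ * n * l g ∈ N)
    (st : ∀ c d : Q, ∃ u ∈ N, u • ι c = ι d ∧ ∀ b, b < c → b < d → u • ι b = ι b) :
    ∃ (G : Type) (_ : Group G) (X : Type) (_ : LinearOrder X) (_ : MulAction G X),
      Nontrivial X ∧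
      (∀ g : G, Monotone (fun x : X => g • x)) ∧
      (∀ n : ℕ, ∀ x y : Fin n → X, StrictMono x → StrictMono y →
        ∃ g : G, ∀ i, g • x i = y i) ∧
      (∃ m : Set G → ℝ,
        (∀ A, 0 ≤ m A) ∧ m Set.univ = 1 ∧
        (∀ A B : Set G, Disjoint A B → m (A ∪ B) = m A + m B) ∧
        (∀ (g : G) (A : Set G), m ((fun h => g * h) '' A) = m A)) := by
  obtain ⟨G, hG, hNG, hlG⟩ := exists_closed l N hN hn
  have hit : ∀ m, ∀ g ∈ G, l^[m] g ∈ G := by
    intro m g hg
    induction m with
    | zero => exact hg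
    | succ m ih => rw [Function.iterate_succ_apply']; exact hlG _ ih
  have hmono : Monotone fun k => G.map (sig l k) := by
    rintro k m h _ ⟨g, hg, rfl⟩
    exact ⟨l^[m - k] g, hit _ g hg, (pt_up l h g).symm⟩
  have hact : ∀ k g x, sig l k g • pt ι k x = pt ι k (g • x) := by
    intro k g x
    show pt l k g • pt ι k x = _
    unfold pt
    rw [← Germ.coe_smul']
    congr 1
    funext n
    exact it_smul l ι hl _ g x
  have hlt : ∀ k, StrictMono (pt ι k) := fun k a b h =>
    Germ.coe_lt.2 (Eventually.of_forall fun n => hι.iterate _ h)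
  let H := ⨆ k, G.map (sig l k)
  let X : SubMulAction H (Germ (hyperfilter ℕ : Filter ℕ) Q) :=
    { carrier := {x | ∃ k a, x = pt ι k a}
      smul_mem' := by
        rintro ⟨c, hc⟩ _ ⟨j, a, rfl⟩
        obtain ⟨k, g, -, rfl⟩ := (Subgroup.mem_iSup_of_directed hmono.directed_le).1 hc
        refine ⟨max k j, l^[max k j - k] g • ι^[max k j - j] a, ?_⟩
        rw [← hact, ← pt_up ι (le_max_right k j)]
        show pt l k g • pt ι j a = pt l (max k j) (l^[max k j - k] g) • pt ι j a
        rw [← pt_up l (le_max_left k j)] }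
  refine ⟨H, inferInstance, X, inferInstance, inferInstance, ?_, ?_, ?_,
    (am_iSup_directed _ hmono.directed_le fun k => hG.map _).set_mean⟩
  · obtain ⟨a, b, h⟩ := exists_pair_ne Q
    exact ⟨⟨pt ι 0 a, 0, a, rfl⟩, ⟨pt ι 0 b, 0, b, rfl⟩,
      fun e => h ((hlt 0).injective (congrArg Subtype.val e))⟩
  · rintro ⟨c, hc⟩ ⟨x, hx⟩ ⟨y, hy⟩ h
    change x ≤ y at h
    change c • x ≤ c • y
    clear hc hx hy
    induction c using Germ.inductionOn
    induction x using Germ.inductionOn
    induction y using Germ.inductionOn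
    rw [← Germ.coe_smul', ← Germ.coe_smul', Germ.coe_le]
    filter_upwards [Germ.coe_le.1 h] with n hn
    exact (hm _).monotone hn
  · intro n x y hx hy
    choose k a ha using fun i => (x i).2
    choose j b hb using fun i => (y i).2
    obtain ⟨K, hK⟩ := (Set.finite_range fun i => max (k i) (j i)).bddAbove
    have h1 : ∀ i, (x i).1 = pt ι K (ι^[K - k i] (a i)) := fun i => by
      rw [ha, pt_up ι ((le_max_left _ _).trans (hK ⟨i, rfl⟩))]
    have h2 : ∀ i, (y i).1 = pt ι K (ι^[K - j i] (b i)) := fun i => by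
      rw [hb, pt_up ι ((le_max_right _ _).trans (hK ⟨i, rfl⟩))]
    obtain ⟨g, hg, e⟩ := trans_lev l ι hι hm hl G hlG
      (fun c d => by
        obtain ⟨u, hu, h⟩ := st c d
        exact ⟨u, hNG hu, h⟩) n (fun i => ι^[K - k i] (a i)) (fun i => ι^[K - j i] (b i))
      (fun i i' h => (hlt K).lt_iff_lt.1 (by rw [← h1, ← h1]; exact hx h))
      (fun i i' h => (hlt K).lt_iff_lt.1 (by rw [← h2, ← h2]; exact hy h))
    refine ⟨⟨sig l (K + n) g, le_iSup (fun k => G.map (sig l k)) (K + n) ⟨g, hg, rfl⟩⟩,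
      fun i => Subtype.ext ?_⟩
    change sig l (K + n) g • (x i).1 = (y i).1
    rw [h1, h2, pt_up ι (Nat.le_add_right K n), pt_up ι (Nat.le_add_right K n) (_^[_] (b i)),
      hact, Nat.add_sub_cancel_left, e i]

end Gen

end Pool.Agent.H.MP_52bd65_al
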