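import Pool.Agent.H.MP_52bd65_al.A

set_option autoImplicit false

namespace Pool.Agent.H.MP_52bd65_al

open Pool.Agent.Lib.helper8.Amen Finsupp

abbrev L : Type := Lex (ℚ →₀ ℤ)

theorem lt_L {a b : L} : a < b ↔ ∃ i, (∀ j < i, ofLex a j = ofLex b j) ∧ ofLex a i < ofLex b i :=
  Finsupp.Lex.lt_iff

instance : Countable L := inferInstanceAs (Countable (ℚ →₀ ℤ))

theorem sing_pos (j : ℚ) : (0 : L) < toLex (single j 1) :=
  lt_L.2 ⟨j, fun i h => by simp [h.ne'], by simp⟩

instance : NoMaxOrder L := ⟨fun a => ⟨a + toLex (single 0 1), lt_add_of_pos_right _ (sing_pos 0)⟩⟩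

instance : NoMinOrder L := ⟨fun a => ⟨a - toLex (single 0 1), sub_lt_self _ (sing_pos 0)⟩⟩

instance : DenselyOrdered L := ⟨fun a b h => by
  obtain ⟨i, h1, h2⟩ := lt_L.1 h
  refine ⟨a + toLex (single (i + 1) 1), lt_add_of_pos_right _ (sing_pos _), lt_L.2 ⟨i, ?_, ?_⟩⟩
  · intro j hj
    have : i + 1 ≠ j := by intro e; linarith
    simp [this, h1 j hj]
  · simpa [single_apply] using h2⟩

noncomputable def eL : L ≃o ℚ := Classical.choice (Order.iso_of_countable_dense L ℚ)

noncomputable def io (v : L) : L := toLex (single (eL v) (-1))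

theorem io_mono : StrictMono io := by
  intro a b h
  have h' : eL a < eL b := eL.strictMono h
  refine lt_L.2 ⟨eL a, fun j hj => ?_, ?_⟩
  · simp [io, hj.ne', (hj.trans h').ne']
  · simp [io, h'.ne']

theorem dom_mono (f : ℚ ≃o ℚ) :
    StrictMono fun v : L => (toLex (equivMapDomain f.toEquiv (ofLex v)) : L) := by
  intro a b h
  obtain ⟨i, h1, h2⟩ := lt_L.1 h
  refine lt_L.2 ⟨f i, fun j hj => ?_, by simpa using h2⟩
  exact h1 (f.symm j) (f.symm_apply_lt.2 hj)

/-- action on the index set -/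
noncomputable def cj (g : L ≃o L) : ℚ ≃o ℚ := (eL.symm.trans g).trans eL

noncomputable def lf : (L ≃o L) →* (L ≃o L) where
  toFun g := (dom_mono (cj g)).orderIsoOfRightInverse _
    (fun v => toLex (equivMapDomain (cj g).symm.toEquiv (ofLex v)))
    (fun v => by
      apply ofLex.injective
      ext x
      simp)
  map_one' := by
    ext v
    apply ofLex.injective
    ext x
    show ofLex v (eL (eL.symm x)) = ofLex v x
    simp
  map_mul' a b := by
    ext v
    apply ofLex.injective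
    ext x
    show ofLex v (eL (b.symm (a.symm (eL.symm x)))) = ofLex v (eL (b.symm (eL.symm (eL (a.symm (eL.symm x))))))
    simp

theorem lf_apply (g : L ≃o L) (v : L) (x : ℚ) : ofLex (lf g v) x = ofLex v ((cj g).symm x) := rfl

theorem lf_io (g : L ≃o L) (v : L) : lf g • io v = io (g • v) := by
  show toLex (equivMapDomain (cj g).toEquiv (single (eL v) (-1))) = toLex (single (eL (g v)) (-1))
  rw [equivMapDomain_single]
  simp [cj]

def Ag (c : ℚ) (v w : L) : Prop := ∀ x < c, ofLex v x = ofLex w x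

def NN (c : ℚ) : Subgroup (L ≃o L) where
  carrier := {u | (∀ v, Ag c (u v) v) ∧ ∀ v w, Ag c v w → u v - v = u w - w}
  one_mem' := ⟨fun _ _ _ => rfl, fun v w _ => by simp⟩
  mul_mem' := by
    rintro a b ⟨a1, a2⟩ ⟨b1, b2⟩
    refine ⟨fun v x hx => (a1 _ x hx).trans (b1 v x hx), fun v w h => ?_⟩
    have h1 := a2 (b v) (b w) fun x hx => ((b1 v x hx).trans (h x hx)).trans (b1 w x hx).symm
    have h2 := b2 v w h
    show a (b v) - v = a (b w) - w
    rw [← sub_add_sub_cancel (a (b v)) (b v) v, h1, h2, sub_add_sub_cancel]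
  inv_mem' := by
    rintro a ⟨a1, a2⟩
    have k : ∀ v, Ag c (a⁻¹ v) v := fun v x hx => by
      simpa using (a1 (a⁻¹ v) x hx).symm
    refine ⟨k, fun v w h => ?_⟩
    have := a2 (a⁻¹ v) (a⁻¹ w) fun x hx => ((k v x hx).trans (h x hx)).trans (k w x hx).symm
    simp only [RelIso.apply_inv_self] at this
    rw [← neg_sub, this, neg_sub]

theorem am_NN (c : ℚ) : Am (NN c) := by
  apply am_comm
  rintro a ⟨a1, a2⟩ b ⟨b1, b2⟩
  ext v
  have h1 := a2 _ _ (b1 v)
  have h2 := b2 _ _ (a1 v)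
  show a (b v) = b (a v)
  rw [sub_eq_iff_eq_add] at h1 h2
  rw [h1, h2]
  abel

theorem nz_NN (c d : ℚ) (h : c ≤ d) : ∀ x ∈ NN c, ∀ n ∈ NN d, x⁻¹ * n * x ∈ NN d := by
  intro a ha n ⟨n1, n2⟩
  obtain ⟨-, i2⟩ := (NN c).inv_mem ha
  obtain ⟨a1, a2⟩ := ha
  have k : ∀ v, (a⁻¹ * n * a) v - v = n (a v) - a v := by
    intro v
    have := i2 (n (a v)) (a v) fun x hx => n1 _ x (hx.trans_le h)
    simp only [RelIso.inv_apply_self] at this
    show a⁻¹ (n (a v)) - v = _
    rw [sub_eq_iff_eq_add] at this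
    rw [this]
    abel
  refine ⟨fun v x hx => ?_, fun v w e => ?_⟩
  · have h1 := congrArg (fun t : L => ofLex t x) (k v)
    have h2 := n1 (a v) x hx
    simp only [ofLex_sub, coe_sub, Pi.sub_apply] at h1
    omega
  · rw [k, k]
    refine n2 _ _ fun x hx => ?_
    have h1 := congrArg (fun t : L => ofLex t x) (a2 v w fun y hy => e y (hy.trans_le h))
    have h2 := e x hx
    simp only [ofLex_sub, coe_sub, Pi.sub_apply] at h1
    omega

theorem lf_NN (g : L ≃o L) (c : ℚ) (n : L ≃o L) (hn : n ∈ NN c) :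
    (lf g)⁻¹ * n * lf g ∈ NN ((cj g).symm c) := by
  obtain ⟨n1, n2⟩ := hn
  have k : ∀ v x, ofLex (((lf g)⁻¹ * n * lf g) v) x = ofLex (n (lf g v)) (cj g x) := fun v x => rfl
  have k2 : ∀ (v : L) x, ofLex v x = ofLex (lf g v) (cj g x) := fun v x => by simp [lf_apply]
  refine ⟨fun v x hx => ?_, fun v w e => ?_⟩
  · rw [k, n1 _ _ ((cj g).lt_symm_apply.1 hx), ← k2]
  · have := n2 (lf g v) (lf g w) fun x hx => e _ ((cj g).symm.strictMono hx)
    apply ofLex.injective
    ext x
    have h1 := congrArg (fun t : L => ofLex t (cj g x)) this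
    simp only [ofLex_sub, coe_sub, Pi.sub_apply] at h1 ⊢
    rw [k, k, k2 v x, k2 w x, h1]

open Classical in
theorem bump (c : ℚ) (δ : L) (hδ : Ag c δ 0) :
    ∃ u ∈ NN c, ∀ v, u v = v + if Ag c v 0 then δ else 0 := by
  have k : ∀ (v δ' : L), Ag c δ' 0 → ∀ p : Prop, Ag c (v + if p then δ' else 0) v := by
    intro v δ' h p x hx
    have := h x hx
    split_ifs <;> simp_all
  have k2 : ∀ v w, Ag c v w → (Ag c v 0 ↔ Ag c w 0) := fun v w h =>
    ⟨fun e x hx => (h x hx).symm.trans (e x hx), fun e x hx => (h x hx).trans (e x hx)⟩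
  have hm : StrictMono fun v : L => v + if Ag c v 0 then δ else 0 := by
    intro a b h
    by_cases e : Ag c a b
    · simpa only [k2 a b e, add_lt_add_iff_right] using h
    · obtain ⟨i, h1, h2⟩ := lt_L.1 h
      have hi : i < c := by
        by_contra hi
        exact e fun x hx => h1 x (hx.trans_le (not_lt.1 hi))
      refine lt_L.2 ⟨i, fun j hj => ?_, ?_⟩
      · rw [k a δ hδ _ j (hj.trans hi), k b δ hδ _ j (hj.trans hi), h1 j hj]
      · rwa [k a δ hδ _ i hi, k b δ hδ _ i hi]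
  have hn : Ag c (-δ) 0 := fun x hx => by simpa using hδ x hx
  refine ⟨hm.orderIsoOfRightInverse _ (fun v => v + if Ag c v 0 then -δ else 0) fun v => ?_,
    ⟨fun v => k v δ hδ _, fun v w e => ?_⟩, fun v => rfl⟩
  · simp only [k2 _ _ (k v (-δ) hn _)]
    split_ifs <;> simp
  · show (v + if Ag c v 0 then δ else 0) - v = (w + if Ag c w 0 then δ else 0) - w
    simp only [k2 v w e, add_sub_cancel_left]

theorem step (c d : L) : ∃ u ∈ ⨆ q, NN q, u • io c = io d ∧ ∀ b, b < c → b < d → u • io b = io b := by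
  have k : ∀ v, min (eL c) (eL d) ≤ eL v → Ag (min (eL c) (eL d)) (io v) 0 := by
    intro v h x hx
    simp [io, (hx.trans_le h).ne']
  obtain ⟨u, hu, e⟩ := bump (min (eL c) (eL d)) (io d - io c) fun x hx => by
    have h1 := k c (min_le_left _ _) x hx
    have h2 := k d (min_le_right _ _) x hx
    simp only [ofLex_sub, coe_sub, Pi.sub_apply, h1, h2, sub_self]
    rfl
  refine ⟨u, le_iSup NN _ hu, ?_, fun b h1 h2 => ?_⟩
  · show u (io c) = io d
    rw [e, if_pos (k c (min_le_left _ _)), add_sub_cancel]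
  · show u (io b) = io b
    rw [e, if_neg, add_zero]
    intro h
    have := h (eL b) (lt_min (eL.strictMono h1) (eL.strictMono h2))
    simp [io] at this

theorem lf_sup (g n : L ≃o L) (hn : n ∈ ⨆ q, NN q) : (lf g)⁻¹ * n * lf g ∈ ⨆ q, NN q := by
  induction hn using Subgroup.iSup_induction' with
  | hp q n hn => exact le_iSup NN _ (lf_NN g q n hn)
  | h1 => simp
  | hmul a b _ _ ha hb => simpa [mul_assoc] using Subgroup.mul_mem _ ha hb

theorem main :
    ∃ (G : Type) (_ : Group G) (X : Type) (_ : LinearOrder X) (_ : MulAction G X),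
      Nontrivial X ∧
      (∀ g : G, Monotone (fun x : X => g • x)) ∧
      (∀ n : ℕ, ∀ x y : Fin n → X, StrictMono x → StrictMono y →
        ∃ g : G, ∀ i, g • x i = y i) ∧
      (∃ m : Set G → ℝ,
        (∀ A, 0 ≤ m A) ∧ m Set.univ = 1 ∧
        (∀ A B : Set G, Disjoint A B → m (A ∪ B) = m A + m B) ∧
        (∀ (g : G) (A : Set G), m ((fun h => g * h) '' A) = m A)) :=
  main_abs lf io io_mono (fun g => OrderIso.strictMono g) lf_io (⨆ q, NN q)
    (am_chain NN am_NN nz_NN) lf_sup step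

end Pool.Agent.H.MP_52bd65_al
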